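import Pool.Agent.Helper15.FC.St2

set_option autoImplicit false

/-!
# Project FC, module CNT (large values of prime sums)
-/

namespace Pool.Agent.Helper51.FC

open Pool.Agent.Helper15.FC Polynomial

theorem hCNT (hMOM : StMOM) (hIRB : StIRB) : StCNT := by
  classical
  intro F _ _ r N A B l χ u bb C1 x hr hlB hu hbb hx S hS
  set PP : Finset F[X] := (Finset.Ioc A B).biUnion (fun j => IrX F j) with hPP
  set a : F[X] → ℂ := fun P => (bb P.natDegree : ℂ) * u ^ P.natDegree with ha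
  have hmem : ∀ (j : ℕ) (P : F[X]), P ∈ IrX F j →
      P.Monic ∧ Irreducible P ∧ P ≠ X ∧ P.natDegree = j := by
    intro j P hP
    unfold IrX Ir at hP
    rw [Finset.mem_filter, Finset.mem_filter, mem_Mn] at hP
    exact ⟨hP.1.1.1, hP.1.2, hP.2, hP.1.1.2⟩
  have hdisj : ((Finset.Ioc A B : Finset ℕ) : Set ℕ).PairwiseDisjoint (fun j => IrX F j) := by
    intro i _ j _ hij
    rw [Function.onFun, Finset.disjoint_left]
    intro P h1 h2
    exact hij ((hmem i P h1).2.2.2.symm.trans (hmem j P h2).2.2.2)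
  have hSP : ∀ ξ : MulChar (TN F N) ℂ,
      SP bb A B (Hk r N χ ξ) u = ∑ P ∈ PP, a P * Hk r N χ ξ P := by
    intro ξ
    rw [hPP, Finset.sum_biUnion hdisj]
    unfold SP
    refine Finset.sum_congr rfl fun j _ => Finset.sum_congr rfl fun P hP => ?_
    have h1 := (hmem j P hP).2.2.2
    change (bb j : ℂ) * Hk r N χ ξ P * u ^ j
      = (bb P.natDegree : ℂ) * u ^ P.natDegree * Hk r N χ ξ P
    rw [h1]
    ring
  have hmom := hMOM F r N B l χ PP a hr hlB (by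
    intro P hP
    rw [hPP, Finset.mem_biUnion] at hP
    obtain ⟨j, hj, hP⟩ := hP
    have h1 := hmem j P hP
    exact ⟨h1.1, h1.2.1, h1.2.2.1, by rw [h1.2.2.2]; exact (Finset.mem_Ioc.1 hj).2⟩)
  have hq : (1 : ℝ) ≤ qr F := by
    have : 1 ≤ Fintype.card F := Fintype.card_pos
    exact_mod_cast this
  have huN : 0 ≤ uN F N := by
    unfold uN
    exact mul_nonneg (sub_nonneg.2 hq) (pow_nonneg (by linarith) _)
  have hC1 : 0 ≤ C1 := le_trans (abs_nonneg _) (hbb 0)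
  -- the weight
  have hw : ∑ P ∈ PP, ‖a P‖ ^ 2 ≤ C1 ^ 2 * ∑ j ∈ Finset.Ioc A B, (1 : ℝ) / j := by
    rw [hPP, Finset.sum_biUnion hdisj, Finset.mul_sum]
    refine Finset.sum_le_sum fun j hj => ?_
    have hj1 : 1 ≤ j := by
      have := (Finset.mem_Ioc.1 hj).1
      omega
    have hjr : (0 : ℝ) < j := by exact_mod_cast hj1
    have h1 : ∀ P ∈ IrX F j, ‖a P‖ ^ 2 ≤ C1 ^ 2 * (‖u‖ ^ 2) ^ j := by
      intro P hP
      have h2 := (hmem j P hP).2.2.2
      change ‖(bb P.natDegree : ℂ) * u ^ P.natDegree‖ ^ 2 ≤ _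
      rw [h2, norm_mul, norm_pow, Complex.norm_real, Real.norm_eq_abs, mul_pow, ← pow_mul,
        mul_comm j 2, pow_mul]
      exact mul_le_mul_of_nonneg_right (pow_le_pow_left₀ (abs_nonneg _) (hbb j) 2)
        (pow_nonneg (pow_nonneg (norm_nonneg _) _) _)
    have h3 : (IrX F j).card ≤ (Ir F j).card := by
      unfold IrX
      exact Finset.card_filter_le _ _
    have h4 := hIRB F j hj1
    have h5 : (0 : ℝ) ≤ (‖u‖ ^ 2) ^ j := pow_nonneg (pow_nonneg (norm_nonneg _) _) _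
    have h6 : qr F ^ j * (‖u‖ ^ 2) ^ j = 1 := by
      rw [← mul_pow, hu, one_pow]
    calc ∑ P ∈ IrX F j, ‖a P‖ ^ 2 ≤ ∑ P ∈ IrX F j, C1 ^ 2 * (‖u‖ ^ 2) ^ j :=
          Finset.sum_le_sum h1
      _ = ((IrX F j).card : ℝ) * (C1 ^ 2 * (‖u‖ ^ 2) ^ j) := by
          rw [Finset.sum_const, nsmul_eq_mul]
      _ ≤ ((Ir F j).card : ℝ) * (C1 ^ 2 * (‖u‖ ^ 2) ^ j) :=
          mul_le_mul_of_nonneg_right (by exact_mod_cast h3) (mul_nonneg (sq_nonneg _) h5)
      _ ≤ C1 ^ 2 * (1 / j) := by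
          rw [mul_one_div, le_div_iff₀ hjr]
          have h7 : ((Ir F j).card : ℝ) * (C1 ^ 2 * (‖u‖ ^ 2) ^ j) * j
              = C1 ^ 2 * ((j : ℝ) * ((Ir F j).card : ℝ) * (‖u‖ ^ 2) ^ j) := by ring
          rw [h7]
          have h8 : (j : ℝ) * ((Ir F j).card : ℝ) * (‖u‖ ^ 2) ^ j ≤ 1 := by
            rw [← h6]
            exact mul_le_mul_of_nonneg_right h4 h5
          calc C1 ^ 2 * ((j : ℝ) * ((Ir F j).card : ℝ) * (‖u‖ ^ 2) ^ j) ≤ C1 ^ 2 * 1 :=
                mul_le_mul_of_nonneg_left h8 (sq_nonneg _)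
            _ = C1 ^ 2 := mul_one _
  -- the count
  have hcount : (S.card : ℝ) * x ^ (2 * l) ≤
      ∑ ξ ∈ allF (MulChar (TN F N) ℂ), ‖∑ P ∈ PP, a P * Hk r N χ ξ P‖ ^ (2 * l) := by
    calc (S.card : ℝ) * x ^ (2 * l) = ∑ ξ ∈ S, x ^ (2 * l) := by
          rw [Finset.sum_const, nsmul_eq_mul]
      _ ≤ ∑ ξ ∈ S, ‖∑ P ∈ PP, a P * Hk r N χ ξ P‖ ^ (2 * l) := by
          refine Finset.sum_le_sum fun ξ hξ => ?_
          rw [← hSP ξ]
          exact pow_le_pow_left₀ hx.le (hS ξ hξ) _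
      _ ≤ _ := by
          refine Finset.sum_le_sum_of_subset_of_nonneg (fun ξ _ => mem_allF ξ) ?_
          intro ξ _ _
          exact pow_nonneg (norm_nonneg _) _
  have hsum0 : 0 ≤ ∑ P ∈ PP, ‖a P‖ ^ 2 := Finset.sum_nonneg fun P _ => sq_nonneg _
  have hfac : (l.factorial : ℝ) ≤ (l : ℝ) ^ l := by
    exact_mod_cast Nat.factorial_le_pow l
  have hfin : (S.card : ℝ) * x ^ (2 * l) ≤
      uN F N * (l * C1 ^ 2 * (∑ j ∈ Finset.Ioc A B, (1 : ℝ) / j)) ^ l := by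
    refine hcount.trans (hmom.trans ?_)
    rw [mul_assoc (uN F N), mul_assoc (l : ℝ), mul_pow (l : ℝ)]
    refine mul_le_mul_of_nonneg_left ?_ huN
    exact mul_le_mul hfac (pow_le_pow_left₀ hsum0 hw l) (pow_nonneg hsum0 _)
      (pow_nonneg (Nat.cast_nonneg _) _)
  rw [div_pow, ← mul_div_assoc, ← pow_mul, le_div_iff₀ (pow_pos hx _)]
  exact hfin

end Pool.Agent.Helper51.FC
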