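import Pool.Agent.Helper15.FC.St3

set_option autoImplicit false

/-!
# Project FC, module UNI (uniqueness of the primitive approximation)
-/

namespace Pool.Agent.Helper51.FC

open Pool.Agent.Helper15.FC Polynomial

private theorem monic_gcd {F : Type} [Field F] (r r' : F[X]) (hr : r.Monic) :
    ∃ d a b : F[X], d.Monic ∧ d ∣ r ∧ d ∣ r' ∧ d = r * a + r' * b := by
  classical
  have hd0 : EuclideanDomain.gcd r r' ≠ 0 := by
    intro h
    exact hr.ne_zero (EuclideanDomain.gcd_eq_zero_iff.1 h).1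
  set g := EuclideanDomain.gcd r r' with hg
  refine ⟨C g.leadingCoeff⁻¹ * g, C g.leadingCoeff⁻¹ * EuclideanDomain.gcdA r r',
    C g.leadingCoeff⁻¹ * EuclideanDomain.gcdB r r', ?_, ?_, ?_, ?_⟩
  · exact Polynomial.monic_C_mul_of_mul_leadingCoeff_eq_one
      (inv_mul_cancel₀ (Polynomial.leadingCoeff_ne_zero.2 hd0))
  · obtain ⟨s, hs⟩ := EuclideanDomain.gcd_dvd_left r r'
    refine ⟨C g.leadingCoeff * s, ?_⟩
    have h1 : (C g.leadingCoeff⁻¹ * C g.leadingCoeff : F[X]) = 1 := by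
      rw [← C_mul, inv_mul_cancel₀ (Polynomial.leadingCoeff_ne_zero.2 hd0), C_1]
    rw [← hg] at hs
    calc r = g * s := hs
      _ = (C g.leadingCoeff⁻¹ * C g.leadingCoeff) * (g * s) := by rw [h1, one_mul]
      _ = C g.leadingCoeff⁻¹ * g * (C g.leadingCoeff * s) := by ring
  · obtain ⟨s, hs⟩ := EuclideanDomain.gcd_dvd_right r r'
    refine ⟨C g.leadingCoeff * s, ?_⟩
    have h1 : (C g.leadingCoeff⁻¹ * C g.leadingCoeff : F[X]) = 1 := by
      rw [← C_mul, inv_mul_cancel₀ (Polynomial.leadingCoeff_ne_zero.2 hd0), C_1]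
    rw [← hg] at hs
    calc r' = g * s := hs
      _ = (C g.leadingCoeff⁻¹ * C g.leadingCoeff) * (g * s) := by rw [h1, one_mul]
      _ = C g.leadingCoeff⁻¹ * g * (C g.leadingCoeff * s) := by ring
  · have h := EuclideanDomain.gcd_eq_gcd_ab r r'
    rw [← hg] at h
    calc C g.leadingCoeff⁻¹ * g
        = C g.leadingCoeff⁻¹ * (r * EuclideanDomain.gcdA r r' + r' * EuclideanDomain.gcdB r r') := by
          rw [← h]
      _ = r * (C g.leadingCoeff⁻¹ * EuclideanDomain.gcdA r r') +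
          r' * (C g.leadingCoeff⁻¹ * EuclideanDomain.gcdB r r') := by ring

private theorem claim {F : Type} [Field F] [Fintype F] (m Q : ℕ) (r r' d a b : F[X])
    (ν ν' : AddChar F[X] ℂ) (hQ : 2 * Q ≤ m) (hr : r.Monic) (hr' : r'.Monic)
    (h1 : r.natDegree ≤ Q) (h2 : r'.natDegree ≤ Q) (hν : ν ∈ AC r) (hν' : ν' ∈ AC r')
    (hag : ∀ g ∈ Lw F m, ν g = ν' g) (hd : d.Monic) (hdr : d ∣ r) (hdr' : d ∣ r')
    (hab : d = r * a + r' * b) : ν ∈ AC d := by
  intro x
  obtain ⟨s, hs⟩ := hdr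
  obtain ⟨s', hs'⟩ := hdr'
  have hsm : s.Monic := by
    refine hd.of_mul_monic_left ?_
    rw [← hs]
    exact hr
  have hsd : s.natDegree ≤ Q := by
    have := hd.natDegree_mul hsm
    rw [← hs] at this
    omega
  set w := (b * x) /ₘ s with hw
  set b' := (b * x) %ₘ s with hb'
  have hdiv : b' + s * w = b * x := Polynomial.modByMonic_add_div (b * x) s
  have hdec : d * x = r * (a * x + s' * w) + r' * b' := by
    have e1 : r' * s = r * s' := by
      rw [hs, hs']
      ring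
    calc d * x = (r * a + r' * b) * x := by rw [← hab]
      _ = r * (a * x) + r' * (b * x) := by ring
      _ = r * (a * x) + r' * (b' + s * w) := by rw [hdiv]
      _ = r * (a * x) + r' * s * w + r' * b' := by ring
      _ = r * (a * x) + r * s' * w + r' * b' := by rw [e1]
      _ = r * (a * x + s' * w) + r' * b' := by ring
  have hlow : r' * b' ∈ Lw F m := by
    rw [mem_Lw]
    by_cases hb0 : b' = 0
    · rw [hb0, mul_zero, Polynomial.degree_zero]
      exact WithBot.bot_lt_coe m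
    · have hlt : b'.degree < s.degree := Polynomial.degree_modByMonic_lt _ hsm
      have hlt2 : b'.natDegree < s.natDegree := Polynomial.natDegree_lt_natDegree hb0 hlt
      have hne : r' * b' ≠ 0 := mul_ne_zero hr'.ne_zero hb0
      rw [Polynomial.degree_eq_natDegree hne, Polynomial.natDegree_mul hr'.ne_zero hb0]
      exact_mod_cast (by omega : r'.natDegree + b'.natDegree < m)
  rw [hdec, AddChar.map_add_eq_mul, hν, one_mul, hag _ hlow, hν']

theorem hUNI (hACF : StACF) : StUNI := by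
  classical
  intro F _ _ m Q r r' ν ν' hQ hr hr' h1 h2 hν hν' hag
  have hP : ∀ (p : F[X]) (μ : AddChar F[X] ℂ), p.Monic → μ ∈ Pr p →
      μ ∈ AC p ∧ ∀ p' : F[X], p'.Monic → p' ∣ p → μ ∈ AC p' → p' = p := by
    intro p μ hp hμ
    unfold Pr at hμ
    rw [Finset.mem_filter] at hμ
    exact ⟨(((hACF F).2 p hp).2.1 μ).1 hμ.1, hμ.2⟩
  obtain ⟨hνA, hνP⟩ := hP r ν hr hν
  obtain ⟨hνA', hνP'⟩ := hP r' ν' hr' hν'
  obtain ⟨d, a, b, hd, hdr, hdr', hab⟩ := monic_gcd r r' hr
  have c1 : ν ∈ AC d := claim m Q r r' d a b ν ν' hQ hr hr' h1 h2 hνA hνA' hag hd hdr hdr' hab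
  have c2 : ν' ∈ AC d := claim m Q r' r d b a ν' ν hQ hr' hr h2 h1 hνA' hνA
    (fun g hg => (hag g hg).symm) hd hdr' hdr (by rw [hab]; ring)
  have e1 : d = r := hνP d hd hdr c1
  have e2 : d = r' := hνP' d hd hdr' c2
  have e3 : r = r' := e1.symm.trans e2
  refine ⟨e3, ?_⟩
  subst e3
  ext f
  have hf : f %ₘ r + r * (f /ₘ r) = f := Polynomial.modByMonic_add_div f r
  have hlow : f %ₘ r ∈ Lw F m := by
    rw [mem_Lw]
    refine lt_of_lt_of_le (Polynomial.degree_modByMonic_lt f hr) ?_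
    rw [Polynomial.degree_eq_natDegree hr.ne_zero]
    exact_mod_cast (by omega : r.natDegree ≤ m)
  rw [← hf, AddChar.map_add_eq_mul, AddChar.map_add_eq_mul, hνA, hνA', mul_one, mul_one, hag _ hlow]

end Pool.Agent.Helper51.FC
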